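import Pool.Agent.W527.CL.Defs

/-!
# The parts of the proof
-/

namespace Pool.Agent.W527.CL

open NumberField

/-- The field exists (for instance the splitting field of `X ^ 5 - 4 X + 2`; see
`Polynomial.Gal.galActionHom_bijective_of_prime_degree'`; compare Archive AbelRuffini). -/
def S_FIELD : Prop := ∃ (K : Type) (_ : Field K) (_ : NumberField K), Nonempty (FieldData K)

/-- Multiplicative independence. -/
def S_INDEP : Prop := ∀ (K : Type) [Field K] [NumberField K] (D : FieldData K) (m : Fin 4 → ℤ),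
  ∏ j, (D.β 0 + (nn j : ℂ)) ^ m j = ∏ j, (D.β 1 + (nn j : ℂ)) ^ m j → m = 0

/-- The first three roots are real and larger than `- 3`. -/
def S_POS : Prop := ∀ (K : Type) [Field K] [NumberField K] (D : FieldData K) (k : Fin 5) (j : Fin 4),
  k ≠ 3 → k ≠ 4 → ∃ r : ℝ, 0 < r ∧ D.β k + (nn j : ℂ) = (r : ℂ)

/-- Facts on the logarithms. -/
def S_LGC : Prop := ∀ (K : Type) [Field K] [NumberField K] (D : FieldData K) (j : Fin 4) (k : Fin 5),
  (D.lgc j k).re = D.lam j k ∧ (starRingEnd ℂ) (D.lgc j k) = D.lgc j (Equiv.swap 3 4 k) ∧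
    Complex.exp (D.lgc j k) = D.β k + (nn j : ℂ)

/-- Simultaneous approximation (Dirichlet, weak form). -/
def S_DIR : Prop := ∀ (ι : Type) [Fintype ι] (ρ : ι → ℝ) (η : ℝ), 0 < η →
  ∃ q : ℕ, 0 < q ∧ ∃ m : ι → ℤ, ∀ a, |(q : ℝ) * ρ a - m a| < η

/-- The closure of a non-discrete subgroup of a real vector space contains a line. -/
def S_LINE : Prop := ∀ (E : Type) [NormedAddCommGroup E] [NormedSpace ℝ E] [FiniteDimensional ℝ E]
  (H : AddSubgroup E), (∀ ε : ℝ, 0 < ε → ∃ x ∈ H, x ≠ 0 ∧ ‖x‖ < ε) →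
  ∃ v : E, v ≠ 0 ∧ ∀ t : ℝ, t • v ∈ closure (H : Set E)

/-- The difference formula (here `k = p i`, `k' = p 4`). -/
def S_DIFF : Prop := ∀ (F : Type) [Field F] [CharZero F] (μ : Fin 4 → Fin 5 → F) (i : Fin 4)
  (p : Equiv.Perm (Fin 5)),
  ev μ p - ev μ (Equiv.swap (p i.castSucc) (p (Fin.last 4)) * p) =
    (μ i (p i.castSucc) - μ i (p (Fin.last 4))) +
      ∑ i', (μ i' (p i.castSucc) - μ i' (p (Fin.last 4)))

/-- If all values are zero, the functions are constant. -/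
def S_ZERO : Prop := ∀ (F : Type) [Field F] [CharZero F] (μ : Fin 4 → Fin 5 → F),
  (∀ p, ev μ p = 0) → ∀ i k k', μ i k = μ i k'

/-- If all values are rational, the differences are rational. -/
def S_RAT : Prop := ∀ (μ : Fin 4 → Fin 5 → ℝ), (∀ p, ∃ q : ℚ, ev μ p = q) →
  ∀ i k k', ∃ q : ℚ, μ i k - μ i k' = q

/-- Functions with the sign property are zero. -/
def S_SIGN : Prop := ∀ (μ : Fin 4 → Fin 5 → ℝ), (∀ (p : Equiv.Perm (Fin 5)) (k k' : Fin 5), k ≠ k' →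
  ev μ (Equiv.swap k k' * p) = - ev μ p) → ∀ p, ev μ p = 0

/-- Automorphisms of `ℂ` induce all permutations of the roots
(`Pool.Agent.W519.Q.Eig.exists_act`). -/
def S_AUT : Prop := ∀ (K : Type) [Field K] [NumberField K] (D : FieldData K)
  (p : Equiv.Perm (Fin 5)), ∃ τ : ℂ ≃+* ℂ, ∀ k, τ (D.β k) = D.β (p k)

/-- The real logarithms of the closure of `L`. -/
def S_SPAN : Prop := ∀ (K : Type) [Field K] [NumberField K] (D : FieldData K)
  (u : (K →+* ℂ) → ℂˣ), u ∈ clos K D.L → ∃ X : Matrix (Fin 4) (Fin 4) ℝ, X.IsSymm ∧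
    ∀ φ, Real.log ‖(u φ : ℂ)‖ = ev (D.mu X) (D.perm φ)

/-- Lines in the closure lie in the identity component. -/
def S_PATH : Prop := ∀ (K : Type) [Field K] [NumberField K] (L : Subgroup Kˣ)
  (v : (K →+* ℂ) → ℂ), (∀ t : ℝ, ex (fun φ => (t : ℂ) * v φ) ∈ clos K L) →
  ∀ t : ℝ, ex (fun φ => (t : ℂ) * v φ) ∈ idComp K L

/-- The Lie algebra of `B` is in the Lie algebra of the identity component, if this has finite
index. -/
def S_DIVIS : Prop := ∀ (K : Type) [Field K] [NumberField K] (L : Subgroup Kˣ)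
  (N : AddSubgroup ((K →+* ℂ) → ℤ)), (idComp K L).relIndex (points K N) ≠ 0 →
  ∀ z : (K →+* ℂ) → ℂ, (∀ φ, z (ComplexEmbedding.conjugate φ) = (starRingEnd ℂ) (z φ)) →
  (∀ n ∈ N, ∑ φ, (n φ : ℂ) * z φ = 0) → ex z ∈ idComp K L

/-- One-parameter subgroups of `B(ℝ)`. -/
def S_LIE : Prop := ∀ (K : Type) [Field K] [NumberField K]
  (N : AddSubgroup ((K →+* ℂ) → ℤ)) (v : (K →+* ℂ) → ℂ),
  (∀ t : ℝ, ex (fun φ => (t : ℂ) * v φ) ∈ points K N) →
  (∀ φ, v (ComplexEmbedding.conjugate φ) = (starRingEnd ℂ) (v φ)) ∧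
    ∀ n ∈ N, ∑ φ, (n φ : ℂ) * v φ = 0

/-- The vectors `vec C r` are logarithms of elements of `L`. -/
def S_EXP : Prop := ∀ (K : Type) [Field K] [NumberField K] (D : FieldData K)
  (C : Matrix (Fin 4) (Fin 4) ℤ) (r : Fin 4 → ℤ), ex (D.vec C r) ∈ D.L.map (emb K)

/-- There are arbitrarily small non-zero vectors `vec C r`. -/
def S_SMALL : Prop := ∀ (K : Type) [Field K] [NumberField K] (D : FieldData K) (ε : ℝ), 0 < ε →
  ∃ (C : Matrix (Fin 4) (Fin 4) ℤ) (r : Fin 4 → ℤ), D.vec C r ≠ 0 ∧ ‖D.vec C r‖ < ε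

/-- The set of real symmetric vectors which are annihilated by `N`. -/
def Real0 (K : Type) [Field K] [NumberField K] (N : AddSubgroup ((K →+* ℂ) → ℤ)) :
    Set ((K →+* ℂ) → ℝ) :=
  {z | (∀ φ, z (ComplexEmbedding.conjugate φ) = z φ) ∧ ∀ n ∈ N, ∑ φ, (n φ : ℝ) * z φ = 0}

/-- There is no non-compact part. -/
def S_NONCOMPACT : Prop := ∀ (K : Type) [Field K] [NumberField K] (D : FieldData K)
  (N : AddSubgroup ((K →+* ℂ) → ℤ)), Stable K N →
  (∀ z ∈ Real0 K N, ∃ X : Matrix (Fin 4) (Fin 4) ℝ, X.IsSymm ∧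
    ∀ φ, z φ = ev (D.mu X) (D.perm φ)) → ∀ z ∈ Real0 K N, z = 0

/-- The final statement. -/
def S_MAIN : Prop := ∀ (K : Type) [Field K] [NumberField K] (_ : FieldData K), ¬ RealExpected K

end Pool.Agent.W527.CL
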