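import Mathlib

/-!
# Closures of finitely generated subgroups of `R_{K/ℚ}(𝔾_m)(ℚ)` in the real points

The torus `T = R_{K/ℚ}(𝔾_m)`: `Φ = (K →+* ℂ)` is the set of embeddings, `T(ℂ) = (ℂˣ)^Φ`, the group
of characters is `ℤ^Φ`; `T(ℚ) = Kˣ`.
-/

namespace Pool.Agent.W527.CL

open NumberField

noncomputable section

section defs

variable (K : Type) [Field K] [NumberField K]

/-- The inclusion of `T(ℚ) = Kˣ` in `T(ℂ)`. -/
def emb : Kˣ →* ((K →+* ℂ) → ℂˣ) where
  toFun x φ := Units.map (φ : K →* ℂ) x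
  map_one' := by ext φ; simp
  map_mul' x y := by ext φ; simp

/-- The real points `T(ℝ) = (K ⊗ ℝ)ˣ`, as a subgroup of `T(ℂ)`. -/
def realPoints : Subgroup ((K →+* ℂ) → ℂˣ) where
  carrier := {u | ∀ φ, (u (ComplexEmbedding.conjugate φ) : ℂ) = starRingEnd ℂ (u φ)}
  one_mem' φ := by simp
  mul_mem' {u v} hu hv φ := by simp [hu φ, hv φ]
  inv_mem' {u} hu φ := by simp [hu φ]

/-- Subgroups of the group of characters which are stable under the Galois group: these correspond to
the algebraic subgroups of `T` defined over `ℚ`. -/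
def Stable (N : AddSubgroup ((K →+* ℂ) → ℤ)) : Prop :=
  ∀ τ : ℂ ≃+* ℂ, ∀ n ∈ N, (fun φ => n ((τ : ℂ →+* ℂ).comp φ)) ∈ N

/-- The real points `B(ℝ)` of the algebraic subgroup `B` of `T` which is the common kernel of the
characters in `N`. -/
def points (N : AddSubgroup ((K →+* ℂ) → ℤ)) : Subgroup ((K →+* ℂ) → ℂˣ) where
  carrier := {u | u ∈ realPoints K ∧ ∀ n ∈ N, ∏ φ, u φ ^ n φ = 1}
  one_mem' := ⟨one_mem _, fun n _ => by simp⟩
  mul_mem' {u v} hu hv := ⟨mul_mem hu.1 hv.1, fun n hn => by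
    simp only [Pi.mul_apply, mul_zpow, Finset.prod_mul_distrib, hu.2 n hn, hv.2 n hn, mul_one]⟩
  inv_mem' {u} hu := ⟨inv_mem hu.1, fun n hn => by
    simp only [Pi.inv_apply, inv_zpow, Finset.prod_inv_distrib, hu.2 n hn, inv_one]⟩

/-- The closure of a subgroup `L` of `T(ℚ)`; it lies in `T(ℝ)`, which is closed in `T(ℂ)`. -/
def clos (L : Subgroup Kˣ) : Subgroup ((K →+* ℂ) → ℂˣ) := (L.map (emb K)).topologicalClosure

/-- The identity component of the closure. -/
def idComp (L : Subgroup Kˣ) : Subgroup ((K →+* ℂ) → ℂˣ) :=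
  (Subgroup.connectedComponentOfOne (clos K L)).map (clos K L).subtype

/-- The real part of the expected answer for `R_{K/ℚ}(𝔾_m)`: the identity component of the closure of
every finitely generated subgroup `L` of `T(ℚ)` is a subgroup of finite index of `B(ℝ)` for some
algebraic subgroup `B` defined over `ℚ`. -/
def RealExpected : Prop :=
  ∀ L : Subgroup Kˣ, L.FG → ∃ N : AddSubgroup ((K →+* ℂ) → ℤ), Stable K N ∧
    idComp K L ≤ points K N ∧ (idComp K L).relIndex (points K N) ≠ 0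

end defs

/-- A number field generated by the roots of `X ^ 5 - 4 X + 2`, with the full symmetric group as
Galois group; three roots are real. -/
structure FieldData (K : Type) [Field K] [NumberField K] where
  b : Fin 5 → K
  β : Fin 5 → ℂ
  inj : Function.Injective β
  root : ∀ k, β k ^ 5 - 4 * β k + 2 = 0
  rootK : ∀ k, b k ^ 5 - 4 * b k + 2 = 0
  conj : ∀ k, (starRingEnd ℂ) (β k) = β (Equiv.swap 3 4 k)
  emb : ∀ φ : K →+* ℂ, ∃ p : Equiv.Perm (Fin 5), ∀ k, φ (b k) = β (p k)
  surj : ∀ p : Equiv.Perm (Fin 5), ∃ φ : K →+* ℂ, ∀ k, φ (b k) = β (p k)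

/-- The four integers. -/
def nn : Fin 4 → ℤ := ![3, 5, 7, 9]

/-- Value at the permutation `p` of a family of four functions on the five points. -/
def ev {F : Type*} [AddCommGroup F] (μ : Fin 4 → Fin 5 → F) (p : Equiv.Perm (Fin 5)) : F :=
  ∑ i : Fin 4, (μ i (p i.castSucc) - μ i (p (Fin.last 4)))

section data

variable {K : Type} [Field K] [NumberField K] (D : FieldData K)

/-- The permutation of the roots given by an embedding. -/
def FieldData.perm (φ : K →+* ℂ) : Equiv.Perm (Fin 5) := (D.emb φ).choose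

theorem FieldData.perm_spec (φ : K →+* ℂ) (k : Fin 5) : φ (D.b k) = D.β (D.perm φ k) :=
  (D.emb φ).choose_spec k

/-- The real logarithms `log |β_k + n_j|`. -/
def FieldData.lam (j : Fin 4) (k : Fin 5) : ℝ := Real.log ‖D.β k + (nn j : ℂ)‖

/-- The complex logarithms `log (β_k + n_j)`. -/
def FieldData.lgc (j : Fin 4) (k : Fin 5) : ℂ := Complex.log (D.β k + (nn j : ℂ))

/-- The four functions given by a real matrix. -/
def FieldData.mu (X : Matrix (Fin 4) (Fin 4) ℝ) (i : Fin 4) (k : Fin 5) : ℝ :=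
  ∑ j, X i j * D.lam j k

/-- The four complex functions given by a real matrix and a vector. -/
def FieldData.muc (X : Matrix (Fin 4) (Fin 4) ℝ) (r : Fin 4 → ℝ) (i : Fin 4) (k : Fin 5) : ℂ :=
  ∑ j, (X i j : ℂ) * D.lgc j k +
    (r i : ℂ) * (2 * Real.pi * Complex.I) * (if k = 3 then 1 else if k = 4 then -1 else 0)

/-- The element `(b_i + n_j) / (b_4 + n_j)` of `K`. -/
def FieldData.g (i j : Fin 4) : K := (D.b i.castSucc + (nn j : K)) / (D.b (Fin.last 4) + (nn j : K))

theorem FieldData.ne_zero (i : Fin 5) (j : Fin 4) : D.b i + (nn j : K) ≠ 0 := by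
  intro h
  have h1 : D.b i = ((-(nn j) : ℤ) : K) := by
    push_cast
    exact eq_neg_of_add_eq_zero_left h
  have h2 := D.rootK i
  rw [h1] at h2
  have h3 : ((-(nn j)) ^ 5 - 4 * (-(nn j)) + 2 : ℤ) = 0 := by
    exact_mod_cast h2
  revert h3
  fin_cases j <;> simp [nn]

theorem FieldData.g_ne_zero (i j : Fin 4) : D.g i j ≠ 0 :=
  div_ne_zero (D.ne_zero _ _) (D.ne_zero _ _)

/-- The element `(b_i + n_j) / (b_4 + n_j)` as a unit. -/
def FieldData.gu (i j : Fin 4) : Kˣ := Units.mk0 (D.g i j) (D.g_ne_zero i j)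

/-- The subgroup `L` of `Kˣ`: it is generated by the elements `g_ij g_ji`. -/
def FieldData.L : Subgroup Kˣ :=
  Subgroup.closure (Set.range fun ij : Fin 4 × Fin 4 => D.gu ij.1 ij.2 * D.gu ij.2 ij.1)

/-- The vector of logarithms given by an integral matrix `C` (through the symmetric matrix
`C + Cᵀ`) and an integral vector. -/
def FieldData.vec (C : Matrix (Fin 4) (Fin 4) ℤ) (r : Fin 4 → ℤ) (φ : K →+* ℂ) : ℂ :=
  ev (D.muc (fun i j => ((C i j + C j i : ℤ) : ℝ)) (fun i => (r i : ℝ))) (D.perm φ)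

end data

/-- The exponential map of `T(ℂ)`. -/
def ex {K : Type} [Field K] (z : (K →+* ℂ) → ℂ) : (K →+* ℂ) → ℂˣ :=
  fun φ => Units.mk0 (Complex.exp (z φ)) (Complex.exp_ne_zero _)

end

end Pool.Agent.W527.CL
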