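import Pool.Agent.W527.CL.Stm

/-!
# The assembly
-/

namespace Pool.Agent.W527.CL

open NumberField

set_option linter.unusedSectionVars false
set_option linter.unusedSimpArgs false

section perm

variable {K : Type} [Field K] [NumberField K] (D : FieldData K)

theorem FieldData.perm_eq {φ : K →+* ℂ} {p : Equiv.Perm (Fin 5)}
    (h : ∀ k, φ (D.b k) = D.β (p k)) : D.perm φ = p :=
  Equiv.ext fun k => D.inj ((D.perm_spec φ k).symm.trans (h k))

theorem FieldData.perm_surj (p : Equiv.Perm (Fin 5)) : ∃ φ : K →+* ℂ, D.perm φ = p := by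
  obtain ⟨φ, hφ⟩ := D.surj p
  exact ⟨φ, D.perm_eq hφ⟩

theorem FieldData.perm_conj (φ : K →+* ℂ) :
    D.perm (ComplexEmbedding.conjugate φ) = Equiv.swap 3 4 * D.perm φ := by
  apply D.perm_eq
  intro k
  rw [ComplexEmbedding.conjugate_coe_eq, D.perm_spec φ k, D.conj]
  rfl

theorem FieldData.perm_comp (φ : K →+* ℂ) (τ : ℂ ≃+* ℂ) (p : Equiv.Perm (Fin 5))
    (hτ : ∀ k, τ (D.β k) = D.β (p k)) : D.perm ((τ : ℂ →+* ℂ).comp φ) = p * D.perm φ := by
  apply D.perm_eq
  intro k
  change τ (φ (D.b k)) = _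
  rw [D.perm_spec φ k, hτ]
  rfl

end perm

section stable

variable {K : Type} [Field K] [NumberField K] {N : AddSubgroup ((K →+* ℂ) → ℤ)}

/-- Composition with an automorphism, as a permutation of the embeddings. -/
def compEquiv (τ : ℂ ≃+* ℂ) : (K →+* ℂ) ≃ (K →+* ℂ) where
  toFun φ := (τ : ℂ →+* ℂ).comp φ
  invFun φ := (τ.symm : ℂ →+* ℂ).comp φ
  left_inv φ := by ext x; simp
  right_inv φ := by ext x; simp

theorem sum_comp (hN : Stable K N) (τ : ℂ ≃+* ℂ) (y : (K →+* ℂ) → ℝ)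
    (hy : ∀ n ∈ N, ∑ φ, (n φ : ℝ) * y φ = 0) (n : (K →+* ℂ) → ℤ) (hn : n ∈ N) :
    ∑ φ, (n φ : ℝ) * y ((τ : ℂ →+* ℂ).comp φ) = 0 := by
  rw [← hy _ (hN τ.symm n hn)]
  refine Fintype.sum_equiv (compEquiv τ) _ _ fun φ => ?_
  have h1 : (τ.symm : ℂ →+* ℂ).comp ((compEquiv τ) φ) = φ := (compEquiv τ).left_inv φ
  rw [h1]
  rfl

theorem conj_eq_comp (φ : K →+* ℂ) : ComplexEmbedding.conjugate φ =
    ((starRingAut : ℂ ≃+* ℂ) : ℂ →+* ℂ).comp φ := rfl

theorem conj_conj (φ : K →+* ℂ) :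
    ComplexEmbedding.conjugate (ComplexEmbedding.conjugate φ) = φ := by
  ext x
  simp [ComplexEmbedding.conjugate_coe_eq]

theorem sum_conj (hN : Stable K N) (y : (K →+* ℂ) → ℝ)
    (hy : ∀ n ∈ N, ∑ φ, (n φ : ℝ) * y φ = 0) (n : (K →+* ℂ) → ℤ) (hn : n ∈ N) :
    ∑ φ, (n φ : ℝ) * y (ComplexEmbedding.conjugate φ) = 0 :=
  sum_comp hN starRingAut y hy n hn

end stable

section topo

variable {K : Type} [Field K] [NumberField K]

theorem continuous_ex : Continuous (ex : ((K →+* ℂ) → ℂ) → ((K →+* ℂ) → ℂˣ)) := by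
  refine continuous_pi fun φ => ?_
  rw [Units.continuous_iff]
  constructor
  · exact Complex.continuous_exp.comp (continuous_apply φ)
  · have h : (fun z : (K →+* ℂ) → ℂ => (((ex z φ)⁻¹ : ℂˣ) : ℂ)) =
        fun z => Complex.exp (- z φ) := by
      funext z
      rw [Units.val_inv_eq_inv_val, Complex.exp_neg]
      rfl
    rw [h]
    exact Complex.continuous_exp.comp (continuous_apply φ).neg

theorem isClosed_clos (L : Subgroup Kˣ) : IsClosed (clos K L : Set ((K →+* ℂ) → ℂˣ)) :=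
  Subgroup.isClosed_topologicalClosure _

end topo

section vec

variable {K : Type} [Field K] [NumberField K] (D : FieldData K)

theorem ev_add {F : Type*} [AddCommGroup F] (μ ν : Fin 4 → Fin 5 → F) (p : Equiv.Perm (Fin 5)) :
    ev (fun i k => μ i k + ν i k) p = ev μ p + ev ν p := by
  unfold ev
  rw [← Finset.sum_add_distrib]
  exact Finset.sum_congr rfl fun i _ => add_sub_add_comm _ _ _ _

/-- The subgroup of the vectors `vec C r`. -/
def FieldData.Lam : AddSubgroup ((K →+* ℂ) → ℂ) where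
  carrier := {v | ∃ C r, v = D.vec C r}
  zero_mem' := ⟨0, 0, by
    funext φ
    simp [FieldData.vec, FieldData.muc, ev]⟩
  add_mem' := by
    rintro _ _ ⟨C, r, rfl⟩ ⟨C', r', rfl⟩
    refine ⟨C + C', r + r', ?_⟩
    funext φ
    rw [Pi.add_apply]
    unfold FieldData.vec
    rw [← ev_add]
    congr 1
    funext i k
    unfold FieldData.muc
    simp only [Matrix.add_apply, Pi.add_apply, Int.cast_add, Complex.ofReal_add, add_mul,
      Finset.sum_add_distrib]
    ring
  neg_mem' := by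
    rintro _ ⟨C, r, rfl⟩
    refine ⟨-C, -r, ?_⟩
    funext φ
    rw [Pi.neg_apply]
    have h : ∀ p, - ev (D.muc (fun i j => ((C i j + C j i : ℤ) : ℝ)) (fun i => (r i : ℝ))) p =
        ev (D.muc (fun i j => (((-C) i j + (-C) j i : ℤ) : ℝ)) (fun i => ((-r) i : ℝ))) p := by
      intro p
      unfold ev
      rw [← Finset.sum_neg_distrib]
      refine Finset.sum_congr rfl fun i _ => ?_
      have h1 : ∀ k, D.muc (fun i j => (((-C) i j + (-C) j i : ℤ) : ℝ))
          (fun i => ((-r) i : ℝ)) i k =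
          - D.muc (fun i j => ((C i j + C j i : ℤ) : ℝ)) (fun i => (r i : ℝ)) i k := by
        intro k
        unfold FieldData.muc
        simp only [Matrix.neg_apply, Pi.neg_apply, Int.cast_neg, Int.cast_add, Complex.ofReal_add,
          Complex.ofReal_neg, neg_mul, ← Finset.sum_neg_distrib, neg_add, add_mul]
      rw [h1, h1]
      ring
    exact h _

end vec

section assembly

theorem exists_perm {k k' : Fin 5} (h : k ≠ k') : ∃ π : Equiv.Perm (Fin 5), π 3 = k ∧ π 4 = k' := by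
  refine ⟨Equiv.swap (Equiv.swap 3 k 4) k' * Equiv.swap 3 k, ?_, ?_⟩
  · rw [Equiv.Perm.mul_apply, Equiv.swap_apply_left]
    apply Equiv.swap_apply_of_ne_of_ne _ h
    intro h1
    have h2 : Equiv.swap (3 : Fin 5) k k = Equiv.swap (3 : Fin 5) k (Equiv.swap 3 k 4) :=
      congrArg _ h1
    rw [Equiv.swap_apply_right, Equiv.swap_apply_self] at h2
    exact absurd h2 (by decide)
  · rw [Equiv.Perm.mul_apply, Equiv.swap_apply_left]

theorem main_of (hAut : S_AUT) (hSign : S_SIGN) (hSpan : S_SPAN) (hPath : S_PATH)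
    (hDiv : S_DIVIS) (hLie : S_LIE) (hExp : S_EXP) (hSmall : S_SMALL) (hNC : S_NONCOMPACT)
    (hLine : S_LINE) : S_MAIN := by
  intro K _ _ D hexp
  obtain ⟨N, hst, hle, hidx⟩ := hexp D.L ((Subgroup.fg_iff _).2 ⟨_, rfl, Set.finite_range _⟩)
  have hcl : ∀ u ∈ idComp K D.L, u ∈ clos K D.L := by
    rintro _ ⟨u, -, rfl⟩
    exact u.2
  -- there is no non-compact part
  have hR0 : ∀ z ∈ Real0 K N, z = 0 := by
    refine hNC K D N hst ?_
    intro z hz
    have h1 : ex (fun φ => (z φ : ℂ)) ∈ idComp K D.L := by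
      refine hDiv K D.L N hidx _ (fun φ => ?_) (fun n hn => ?_)
      · rw [hz.1]
        exact (Complex.conj_ofReal _).symm
      · have h2 := congrArg (fun x : ℝ => (x : ℂ)) (hz.2 n hn)
        push_cast at h2
        exact h2
    obtain ⟨X, hX, h2⟩ := hSpan K D _ (hcl _ h1)
    refine ⟨X, hX, fun φ => ?_⟩
    rw [← h2 φ]
    simp [ex, Complex.norm_exp]
  -- a line in the closure
  obtain ⟨v, hv0, hv⟩ := hLine ((K →+* ℂ) → ℂ) D.Lam (fun ε hε => by
    obtain ⟨C, r, h1, h2⟩ := hSmall K D ε hε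
    exact ⟨_, ⟨C, r, rfl⟩, h1, h2⟩)
  have hexcl : ∀ z ∈ closure (D.Lam : Set ((K →+* ℂ) → ℂ)), ex z ∈ clos K D.L := by
    intro z hz
    have h1 : closure (D.Lam : Set ((K →+* ℂ) → ℂ)) ⊆
        ex ⁻¹' (clos K D.L : Set ((K →+* ℂ) → ℂˣ)) := by
      refine closure_minimal ?_ ((isClosed_clos D.L).preimage continuous_ex)
      rintro _ ⟨C, r, rfl⟩
      exact Subgroup.le_topologicalClosure _ (hExp K D C r)
    exact h1 hz
  have hpts : ∀ t : ℝ, ex (fun φ => (t : ℂ) * v φ) ∈ points K N := by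
    intro t
    refine hle (hPath K D.L v (fun t => ?_) t)
    have h1 := hexcl _ (hv t)
    have h2 : t • v = fun φ => (t : ℂ) * v φ := by
      funext φ
      rw [Pi.smul_apply, Complex.real_smul]
    rwa [h2] at h1
  obtain ⟨hsym, hann⟩ := hLie K N v hpts
  -- the form of the vector
  have hform : ∃ μ : Fin 4 → Fin 5 → ℂ, ∀ φ, v φ = ev μ (D.perm φ) := by
    let T : (Fin 4 → Fin 5 → ℂ) →ₗ[ℝ] ((K →+* ℂ) → ℂ) :=
      { toFun := fun μ φ => ev μ (D.perm φ)
        map_add' := fun μ ν => by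
          funext φ
          exact ev_add μ ν _
        map_smul' := fun a μ => by
          funext φ
          simp only [ev, Pi.smul_apply, RingHom.id_apply, ← smul_sub, ← Finset.smul_sum] }
    have h1 : closure (D.Lam : Set ((K →+* ℂ) → ℂ)) ⊆ (LinearMap.range T : Set _) := by
      refine closure_minimal ?_ (Submodule.closed_of_finiteDimensional _)
      rintro _ ⟨C, r, rfl⟩
      exact ⟨_, rfl⟩
    have h2 := hv 1
    rw [one_smul] at h2
    obtain ⟨μ, hμ⟩ := h1 h2
    exact ⟨μ, fun φ => (congrFun hμ φ).symm⟩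
  obtain ⟨μ, hμ⟩ := hform
  -- the real part
  have hre : ∀ φ, (v φ).re = 0 := by
    have h1 : (fun φ => (v φ).re) ∈ Real0 K N := by
      refine ⟨fun φ => ?_, fun n hn => ?_⟩
      · show (v (ComplexEmbedding.conjugate φ)).re = (v φ).re
        rw [hsym]
        exact Complex.conj_re _
      · have h2 := congrArg Complex.re (hann n hn)
        rw [Complex.re_sum] at h2
        rw [← Complex.zero_re, ← h2]
        exact Finset.sum_congr rfl fun φ _ => by simp
    exact fun φ => congrFun (hR0 _ h1) φ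
  -- the imaginary part
  have him : ∀ n ∈ N, ∑ φ, (n φ : ℝ) * (v φ).im = 0 := by
    intro n hn
    have h2 := congrArg Complex.im (hann n hn)
    rw [Complex.im_sum] at h2
    rw [← Complex.zero_im, ← h2]
    exact Finset.sum_congr rfl fun φ _ => by simp
  have hY : ∀ φ, (v φ).im = ev (fun i k => (μ i k).im) (D.perm φ) := by
    intro φ
    rw [hμ φ]
    unfold ev
    rw [Complex.im_sum]
    exact Finset.sum_congr rfl fun i _ => Complex.sub_im _ _
  have hneg : ∀ (p : Equiv.Perm (Fin 5)) (k k' : Fin 5), k ≠ k' →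
      ev (fun i k => (μ i k).im) (Equiv.swap k k' * p) = - ev (fun i k => (μ i k).im) p := by
    intro p k k' hk
    obtain ⟨π, h3, h4⟩ := exists_perm hk
    obtain ⟨τ, hτ⟩ := hAut K D π
    obtain ⟨φ, hφ⟩ := D.perm_surj (π⁻¹ * p)
    have h1 : (fun φ : K →+* ℂ => ((v ((τ : ℂ →+* ℂ).comp φ)).im +
        (v ((τ : ℂ →+* ℂ).comp (ComplexEmbedding.conjugate φ))).im) / 2) ∈ Real0 K N := by
      refine ⟨fun φ => ?_, fun n hn => ?_⟩
      · show _ / 2 = _ / 2
        rw [conj_conj, add_comm]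
      · have e1 := sum_comp hst τ (fun φ => (v φ).im) him n hn
        have e2 := sum_conj hst (fun φ => (v ((τ : ℂ →+* ℂ).comp φ)).im)
          (sum_comp hst τ (fun φ => (v φ).im) him) n hn
        have e3 : ∑ φ : K →+* ℂ, (n φ : ℝ) * (((v ((τ : ℂ →+* ℂ).comp φ)).im +
            (v ((τ : ℂ →+* ℂ).comp (ComplexEmbedding.conjugate φ))).im) / 2) =
            ((∑ φ : K →+* ℂ, (n φ : ℝ) * (v ((τ : ℂ →+* ℂ).comp φ)).im) +
            ∑ φ : K →+* ℂ, (n φ : ℝ) *
              (v ((τ : ℂ →+* ℂ).comp (ComplexEmbedding.conjugate φ))).im) / 2 := by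
          rw [← Finset.sum_add_distrib, Finset.sum_div]
          exact Finset.sum_congr rfl fun φ _ => by ring
        rw [e3, e1, e2]
        simp
    have h2 := congrFun (hR0 _ h1) φ
    simp only [hY, D.perm_comp _ τ π hτ, D.perm_conj, hφ, Pi.zero_apply] at h2
    have h5 : π * (Equiv.swap 3 4 * (π⁻¹ * p)) = Equiv.swap k k' * p := by
      rw [← mul_assoc, Equiv.mul_swap_eq_swap_mul, h3, h4, mul_assoc, mul_inv_cancel_left]
    rw [h5, mul_inv_cancel_left] at h2
    linarith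
  have hz := hSign _ hneg
  apply hv0
  funext φ
  apply Complex.ext
  · exact hre φ
  · rw [hY, hz]
    rfl

end assembly

end Pool.Agent.W527.CL
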